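import Pool.Agent.H30R2.BC.Main

set_option autoImplicit false

/-! Systems of polynomial equations. -/

namespace Pool.Agent.H30R2.BC

open Finset

/-- The system has a common zero in `ℂ ^ k`. -/
def Solvable {s k : ℕ} (f : Fin s → MvPolynomial (Fin k) ℂ) : Prop :=
  ∃ y : Fin k → ℂ, ∀ l, MvPolynomial.eval y (f l) = 0

/-- All the coefficients of the polynomials of the system. -/
noncomputable def coeffs {R : Type} [CommRing R] {s k : ℕ} (f : Fin s → MvPolynomial (Fin k) R) :
    Fin s × (Fin k →₀ ℕ) → R :=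
  fun q => MvPolynomial.coeff q.2 (f q.1)

/-- The system `y_i ^ 2 - y_i = 0` (for `i < k`), `2 ^ 0 y_0 + ... + 2 ^ (k-1) y_(k-1) - z = 0`. -/
noncomputable def sys (R : Type) [CommRing R] (k : ℕ) (z : R) :
    Fin (k + 1) → MvPolynomial (Fin k) R :=
  Fin.snoc (fun i => MvPolynomial.X i ^ 2 - MvPolynomial.X i)
    (∑ i : Fin k, MvPolynomial.C ((2 : R) ^ (i : ℕ)) * MvPolynomial.X i - MvPolynomial.C z)

theorem sys_map {R S : Type} [CommRing R] [CommRing S] (φ : R →+* S) (k : ℕ) (z : R)
    (l : Fin (k + 1)) : MvPolynomial.map φ (sys R k z l) = sys S k (φ z) l := by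
  unfold sys
  refine Fin.lastCases ?_ (fun i => ?_) l
  · rw [Fin.snoc_last, Fin.snoc_last, map_sub, map_sum, MvPolynomial.map_C]
    congr 1
    refine Finset.sum_congr rfl fun i _ => ?_
    rw [map_mul, MvPolynomial.map_C, MvPolynomial.map_X, map_pow, map_ofNat]
  · rw [Fin.snoc_castSucc, Fin.snoc_castSucc, map_sub, map_pow, MvPolynomial.map_X]

theorem coeffs_map {R S : Type} [CommRing R] [CommRing S] (φ : R →+* S) (k : ℕ) (z : R) :
    coeffs (sys S k (φ z)) = fun q => φ (coeffs (sys R k z) q) := by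
  funext q
  show MvPolynomial.coeff q.2 (sys S k (φ z) q.1) = φ (MvPolynomial.coeff q.2 (sys R k z q.1))
  rw [← sys_map, MvPolynomial.coeff_map]

theorem sum_two_pow (k : ℕ) : ∑ i ∈ range k, 2 ^ i + 1 = 2 ^ k := by
  induction k with
  | zero => rfl
  | succ k ih =>
    rw [Finset.sum_range_succ, pow_succ]
    omega

theorem exists_bits (k : ℕ) : ∀ z, z < 2 ^ k →
    ∃ b : ℕ → ℕ, (∀ i, b i = 0 ∨ b i = 1) ∧ ∑ i ∈ range k, 2 ^ i * b i = z := by
  induction k with
  | zero =>
    intro z hz
    refine ⟨fun _ => 0, fun _ => Or.inl rfl, ?_⟩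
    rw [pow_zero] at hz
    rw [Finset.sum_range_zero]
    omega
  | succ k ih =>
    intro z hz
    have key : ∀ c z', (c = 0 ∨ c = 1) → z' < 2 ^ k → 2 ^ k * c + z' = z →
        ∃ b : ℕ → ℕ, (∀ i, b i = 0 ∨ b i = 1) ∧ ∑ i ∈ range (k + 1), 2 ^ i * b i = z := by
      intro c z' hc hz' hzz
      obtain ⟨b, hb, hs⟩ := ih z' hz'
      refine ⟨Function.update b k c, fun i => ?_, ?_⟩
      · by_cases hi : i = k
        · subst hi
          rw [Function.update_self]
          exact hc
        · rw [Function.update_of_ne hi]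
          exact hb i
      · rw [Finset.sum_range_succ, Function.update_self, ← hzz, ← hs, add_comm]
        congr 1
        refine Finset.sum_congr rfl fun i hi => ?_
        rw [Function.update_of_ne (Finset.mem_range.mp hi).ne]
    by_cases h : z < 2 ^ k
    · exact key 0 z (Or.inl rfl) h (by omega)
    · rw [pow_succ] at hz
      exact key 1 (z - 2 ^ k) (Or.inr rfl) (by omega) (by omega)

theorem solvable_iff (k z : ℕ) : Solvable (sys ℂ k (z : ℂ)) ↔ z < 2 ^ k := by
  constructor
  · rintro ⟨y, hy⟩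
    have h1 : ∀ i : Fin k, y i = 0 ∨ y i = 1 := by
      intro i
      have h := hy i.castSucc
      unfold sys at h
      rw [Fin.snoc_castSucc, map_sub, map_pow, MvPolynomial.eval_X] at h
      have h2 : y i * (y i - 1) = 0 := by
        rw [← h]
        ring
      rcases mul_eq_zero.mp h2 with h3 | h3
      · exact Or.inl h3
      · exact Or.inr (sub_eq_zero.mp h3)
    have h2 := hy (Fin.last k)
    unfold sys at h2
    rw [Fin.snoc_last, map_sub, map_sum, MvPolynomial.eval_C, sub_eq_zero] at h2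
    classical
    have h3 : ((∑ i : Fin k, if y i = 1 then 2 ^ (i : ℕ) else 0 : ℕ) : ℂ) = z := by
      rw [← h2]
      push_cast
      refine Finset.sum_congr rfl fun i _ => ?_
      rw [map_mul, MvPolynomial.eval_C, MvPolynomial.eval_X]
      rcases h1 i with h | h
      · rw [h, if_neg zero_ne_one, mul_zero]
      · rw [h, if_pos rfl, mul_one]
    have h4 : (∑ i : Fin k, if y i = 1 then 2 ^ (i : ℕ) else 0 : ℕ) = z := by exact_mod_cast h3
    have h5 : (∑ i : Fin k, if y i = 1 then 2 ^ (i : ℕ) else 0 : ℕ) ≤ ∑ i : Fin k, 2 ^ (i : ℕ) := by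
      refine Finset.sum_le_sum fun i _ => ?_
      split_ifs
      · exact le_refl _
      · exact Nat.zero_le _
    rw [Fin.sum_univ_eq_sum_range (fun i => 2 ^ i) k] at h5
    have h6 := sum_two_pow k
    omega
  · intro hz
    obtain ⟨b, hb, hs⟩ := exists_bits k z hz
    refine ⟨fun i => (b i : ℂ), fun l => ?_⟩
    unfold sys
    refine Fin.lastCases ?_ (fun i => ?_) l
    · rw [Fin.snoc_last, map_sub, map_sum, MvPolynomial.eval_C, sub_eq_zero, ← hs,
        ← Fin.sum_univ_eq_sum_range (fun i => 2 ^ i * b i) k]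
      push_cast
      refine Finset.sum_congr rfl fun i _ => ?_
      rw [map_mul, MvPolynomial.eval_C, MvPolynomial.eval_X]
    · rw [Fin.snoc_castSucc, map_sub, map_pow, MvPolynomial.eval_X]
      rcases hb i with h | h
      · rw [h]; norm_num
      · rw [h]; norm_num

/-- the input with integer coefficients -/
noncomputable def Xs (k z : ℕ) : Fin (k + 1) × (Fin k →₀ ℕ) → ℤ := coeffs (sys ℤ k (z : ℤ))

theorem coeffs_rat (k z : ℕ) : coeffs (sys ℚ k (z : ℚ)) = fun q => (Xs k z q : ℚ) := by
  have h := coeffs_map (Int.castRingHom ℚ) k (z : ℤ)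
  rw [map_natCast] at h
  exact h

theorem coeffs_complex (k z : ℕ) :
    coeffs (sys ℂ k (z : ℂ)) = fun q => Rat.castHom ℂ (coeffs (sys ℚ k (z : ℚ)) q) := by
  have h := coeffs_map (Rat.castHom ℂ) k (z : ℚ)
  rw [map_natCast] at h
  exact h

theorem Xs_congr (k z p : ℕ) (q : Fin (k + 1) × (Fin k →₀ ℕ)) :
    (p : ℤ) ∣ Xs k z q - Xs k (z + p) q := by
  obtain ⟨l, m⟩ := q
  have key : ∀ l : Fin (k + 1), (p : ℤ) ∣ MvPolynomial.coeff m (sys ℤ k (z : ℤ) l) -
      MvPolynomial.coeff m (sys ℤ k ((z + p : ℕ) : ℤ) l) := by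
    intro l
    unfold sys
    refine Fin.lastCases ?_ (fun i => ?_) l
    · rw [Fin.snoc_last, Fin.snoc_last, MvPolynomial.coeff_sub, MvPolynomial.coeff_sub,
        MvPolynomial.coeff_C, MvPolynomial.coeff_C]
      by_cases h : 0 = m
      · rw [if_pos h, if_pos h]
        refine ⟨1, ?_⟩
        push_cast
        ring
      · rw [if_neg h, if_neg h, sub_self]
        exact dvd_zero _
    · rw [Fin.snoc_castSucc, Fin.snoc_castSucc, sub_self]
      exact dvd_zero _
  exact key l

/-- The lower bound for systems of equations. -/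
theorem hn_lower_bound (k : ℕ) (hk : 16 ≤ k) (Ω : Type) [Fintype Ω] [Nonempty Ω]
    (t : Ω → Tree (Fin (k + 1) × (Fin k →₀ ℕ))) (C ε : ℝ) (hε : ε < 1 / 2)
    (h : ∀ z : ℕ, z < 2 ^ (k + 1) → (1 - ε) * Nat.card Ω ≤ Nat.card {ω //
      ((t ω).accepts (coeffs (sys ℂ k z)) = true ↔ Solvable (sys ℂ k z)) ∧
        ((t ω).cost (coeffs (sys ℚ k z)) : ℝ) ≤ C}) :
    (1 - 2 * ε) * 2 ^ k / 32 ≤ C := by
  have hn : 65536 ≤ 2 ^ k := by
    calc 65536 = 2 ^ 16 := by norm_num
      _ ≤ 2 ^ k := Nat.pow_le_pow_right (by norm_num) hk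
  have h1 := lower_bound hn (Xs k) (fun z p i => Xs_congr k z p i) t C ε hε (by
    intro x hx
    refine (h x (by rw [pow_succ]; omega)).trans (le_of_eq ?_)
    congr 1
    refine Nat.card_congr (Equiv.subtypeEquivRight fun ω => ?_)
    rw [coeffs_complex, accepts_map, coeffs_rat, solvable_iff])
  push_cast at h1
  exact h1

/-! ### An upper bound -/

/-- tests whether the constant coefficient of the last equation is `-j` for some `j < n` -/
def scan (k : ℕ) : ℕ → Tree (Fin (k + 1) × (Fin k →₀ ℕ))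
  | 0 => .answer false
  | n + 1 => .comp 1 (.const n) (.comp 2 (.add 0 1) (.test 2 (.answer true) (scan k n)))

/-- the exhaustive search -/
noncomputable def search (k : ℕ) : Tree (Fin (k + 1) × (Fin k →₀ ℕ)) :=
  .comp 0 (.inp (Fin.last k, 0)) (scan k (2 ^ k))

theorem scan_run (k : ℕ) (x : Fin (k + 1) × (Fin k →₀ ℕ) → ℚ) (z : ℕ) :
    ∀ n, ∀ m : ℕ → ℚ, m 0 = -(z : ℚ) → ((scan k n).run x m = true ↔ z < n) := by
  intro n
  induction n with
  | zero =>
    intro m _
    show false = true ↔ _
    simp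
  | succ n ih =>
    intro m hm
    show (Tree.test 2 _ _).run x (Function.update (Function.update m 1 ((n : ℤ) : ℚ)) 2
      (Function.update m 1 ((n : ℤ) : ℚ) 0 + Function.update m 1 ((n : ℤ) : ℚ) 1)) = true ↔ _
    have h1 : Function.update (Function.update m 1 ((n : ℤ) : ℚ)) 2
      (Function.update m 1 ((n : ℤ) : ℚ) 0 + Function.update m 1 ((n : ℤ) : ℚ) 1) 2 =
        (n : ℚ) - z := by
      rw [Function.update_self, Function.update_self, Function.update_of_ne (by norm_num), hm,
        Int.cast_natCast]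
      ring
    by_cases hz : z = n
    · subst hz
      rw [run_pos (by rw [h1, sub_self])]
      exact iff_of_true rfl (Nat.lt_succ_self z)
    · have h2 : (n : ℚ) - z ≠ 0 := by
        rw [sub_ne_zero]
        intro h
        exact hz (Nat.cast_injective h).symm
      rw [run_neg (by rw [h1]; exact h2), ih]
      · omega
      · rw [Function.update_of_ne (by norm_num), Function.update_of_ne (by norm_num), hm]

theorem scan_cost (k : ℕ) (x : Fin (k + 1) × (Fin k →₀ ℕ) → ℚ) (z : ℕ) (hz : z < 2 ^ (k + 1)) :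
    ∀ n, n ≤ 2 ^ k → ∀ m : ℕ → ℚ, m 0 = -(z : ℚ) → (scan k n).costFrom x m ≤ n * (k + 1) := by
  intro n
  induction n with
  | zero =>
    intro _ m _
    exact Nat.zero_le _
  | succ n ih =>
    intro hn m hm
    set M := Function.update (Function.update m 1 ((n : ℤ) : ℚ)) 2
      (Function.update m 1 ((n : ℤ) : ℚ) 0 + Function.update m 1 ((n : ℤ) : ℚ) 1) with hM
    have h0 : (scan k (n + 1)).costFrom x m = 0 + (0 + ((M 2).num.natAbs.size +
        if M 2 = 0 then 0 else (scan k n).costFrom x M)) := rfl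
    have h1 : M 2 = (((n : ℤ) - z : ℤ) : ℚ) := by
      rw [hM, Function.update_self, Function.update_self, Function.update_of_ne (by norm_num), hm]
      push_cast
      ring
    have h2 : (M 2).num.natAbs.size ≤ k + 1 := by
      rw [h1, Rat.num_intCast, Nat.size_le]
      have h3 : 2 ^ (k + 1) = 2 ^ k * 2 := pow_succ 2 k
      omega
    have h3 : (if M 2 = 0 then 0 else (scan k n).costFrom x M) ≤ n * (k + 1) := by
      split_ifs
      · exact Nat.zero_le _
      · refine ih (by omega) M ?_
        rw [hM, Function.update_of_ne (by norm_num), Function.update_of_ne (by norm_num), hm]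
    rw [h0]
    have h4 : (n + 1) * (k + 1) = (k + 1) + n * (k + 1) := by ring
    rw [h4]
    omega

theorem coeff_last (R : Type) [CommRing R] (k : ℕ) (z : R) :
    coeffs (sys R k z) (Fin.last k, 0) = -z := by
  show MvPolynomial.coeff 0 (sys R k z (Fin.last k)) = -z
  unfold sys
  rw [Fin.snoc_last, MvPolynomial.coeff_sub, MvPolynomial.coeff_C, if_pos rfl,
    MvPolynomial.coeff_sum, Finset.sum_eq_zero, zero_sub]
  intro i _
  rw [MvPolynomial.coeff_C_mul, MvPolynomial.coeff_X]
  rw [if_neg, mul_zero]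
  intro h
  have := Finsupp.ext_iff.mp h i
  rw [Finsupp.single_eq_same, Finsupp.zero_apply] at this
  exact one_ne_zero this

/-- The exhaustive search decides the systems with bit cost at most `2 ^ k (k + 1)`. -/
theorem hn_upper_bound (k z : ℕ) (hz : z < 2 ^ (k + 1)) :
    ((search k).accepts (coeffs (sys ℂ k z)) = true ↔ Solvable (sys ℂ k z)) ∧
      (search k).cost (coeffs (sys ℚ k z)) ≤ 2 ^ k * (k + 1) := by
  constructor
  · rw [coeffs_complex, accepts_map, solvable_iff]
    show (scan k (2 ^ k)).run _ (Function.update 0 0 (coeffs (sys ℚ k z) (Fin.last k, 0))) = true ↔ _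
    refine scan_run k _ z (2 ^ k) _ ?_
    rw [Function.update_self, coeff_last]
  · show 0 + (scan k (2 ^ k)).costFrom _
      (Function.update 0 0 (coeffs (sys ℚ k z) (Fin.last k, 0))) ≤ _
    rw [zero_add]
    refine scan_cost k _ z hz (2 ^ k) (le_refl _) _ ?_
    rw [Function.update_self, coeff_last]

end Pool.Agent.H30R2.BC
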