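import Pool.Agent.H30R2.BC.HN
import Pool.Agent.H638R2.Interp

set_option autoImplicit false

/-! Trees without divisions compute long integers on most of the solvable systems. -/

namespace Pool.Agent.H30R2.BC

open Finset Polynomial

variable {ι : Type}

/-- The tree contains no divisions. -/
def Tree.DivFree : Tree ι → Prop
  | .answer _ => True
  | .comp _ o t => (∀ a b, o ≠ .div a b) ∧ t.DivFree
  | .test _ yes no => yes.DivFree ∧ no.DivFree

/-- The number of tests in the run on the input `x` if the registers contain `m`. -/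
def Tree.testsFrom (x : ι → ℚ) : Tree ι → (ℕ → ℚ) → ℕ
  | .answer _, _ => 0
  | .comp r o t, m => t.testsFrom x (Function.update m r (o.val x m))
  | .test a yes no, m => 1 + if m a = 0 then yes.testsFrom x m else no.testsFrom x m

/-- The number of tests in the run on the input `x`. -/
def Tree.tests (t : Tree ι) (x : ι → ℚ) : ℕ := t.testsFrom x 0

/-- Some number with the property `B` is computed in the run on the input `x` if the registers
contain `m`. -/
def Tree.ComputesFrom (B : ℚ → Prop) (x : ι → ℚ) : Tree ι → (ℕ → ℚ) → Prop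
  | .answer _, _ => False
  | .comp r o t, m => B (o.val x m) ∨ t.ComputesFrom B x (Function.update m r (o.val x m))
  | .test a yes no, m => if m a = 0 then yes.ComputesFrom B x m else no.ComputesFrom B x m

/-- Some number with the property `B` is computed in the run on the input `x`. -/
def Tree.Computes (t : Tree ι) (B : ℚ → Prop) (x : ι → ℚ) : Prop := t.ComputesFrom B x 0

/-! ### The generic run -/

/-- the result of an instruction for polynomials -/
noncomputable def Op.pval (x : ι → ℤ[X]) (M : ℕ → ℤ[X]) : Op ι → ℤ[X]
  | .inp i => x i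
  | .const c => C c
  | .add a b => M a + M b
  | .sub a b => M a - M b
  | .mul a b => M a * M b
  | .div _ _ => 0

open Classical in
/-- the answer of the generic run -/
noncomputable def Tree.grun (x : ι → ℤ[X]) : Tree ι → (ℕ → ℤ[X]) → Bool
  | .answer b, _ => b
  | .comp r o t, M => t.grun x (Function.update M r (o.pval x M))
  | .test a yes no, M => if M a = 0 then yes.grun x M else no.grun x M

open Classical in
/-- the number of tests of the generic run -/
noncomputable def Tree.gtests (x : ι → ℤ[X]) : Tree ι → (ℕ → ℤ[X]) → ℕ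
  | .answer _, _ => 0
  | .comp r o t, M => t.gtests x (Function.update M r (o.pval x M))
  | .test a yes no, M => 1 + if M a = 0 then yes.gtests x M else no.gtests x M

/-- the values at `z` -/
def ev {α : Type} (z : ℤ) (M : α → ℤ[X]) : α → ℚ := fun a => ((M a).eval z : ℤ)

theorem ev_update (z : ℤ) (M : ℕ → ℤ[X]) (r : ℕ) (P : ℤ[X]) :
    ev z (Function.update M r P) = Function.update (ev z M) r ((P.eval z : ℤ) : ℚ) := by
  funext a
  by_cases ha : a = r
  · subst ha
    unfold ev
    rw [Function.update_self, Function.update_self]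
  · unfold ev
    rw [Function.update_of_ne ha, Function.update_of_ne ha]

theorem op_eval (x : ι → ℤ[X]) (M : ℕ → ℤ[X]) (z : ℤ) (o : Op ι) (ho : ∀ a b, o ≠ .div a b) :
    o.val (ev z x) (ev z M) = (((o.pval x M).eval z : ℤ) : ℚ) := by
  cases o with
  | inp i => rfl
  | const c =>
    show ((c : ℤ) : ℚ) = (((C c : ℤ[X]).eval z : ℤ) : ℚ)
    rw [eval_C]
  | add a b =>
    show (((M a).eval z : ℤ) : ℚ) + (((M b).eval z : ℤ) : ℚ) = (((M a + M b).eval z : ℤ) : ℚ)
    rw [eval_add, Int.cast_add]
  | sub a b =>
    show (((M a).eval z : ℤ) : ℚ) - (((M b).eval z : ℤ) : ℚ) = (((M a - M b).eval z : ℤ) : ℚ)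
    rw [eval_sub, Int.cast_sub]
  | mul a b =>
    show (((M a).eval z : ℤ) : ℚ) * (((M b).eval z : ℤ) : ℚ) = (((M a * M b).eval z : ℤ) : ℚ)
    rw [eval_mul, Int.cast_mul]
  | div a b => exact absurd rfl (ho a b)

/-- almost all integers follow the generic run -/
theorem generic (x : ι → ℤ[X]) (t : Tree ι) : t.DivFree → ∀ M : ℕ → ℤ[X],
    ∃ B : Finset ℤ, ∀ z ∉ B, t.run (ev z x) (ev z M) = t.grun x M ∧
      t.testsFrom (ev z x) (ev z M) = t.gtests x M := by
  classical
  induction t with
  | answer b => exact fun _ M => ⟨∅, fun z _ => ⟨rfl, rfl⟩⟩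
  | comp r o t ih =>
    rintro ⟨ho, ht⟩ M
    obtain ⟨B, hB⟩ := ih ht (Function.update M r (o.pval x M))
    refine ⟨B, fun z hz => ?_⟩
    have h := hB z hz
    rw [ev_update, ← op_eval x M z o ho] at h
    exact h
  | test a yes no ihy ihn =>
    rintro ⟨hy, hn⟩ M
    obtain ⟨By, hBy⟩ := ihy hy M
    obtain ⟨Bn, hBn⟩ := ihn hn M
    refine ⟨By ∪ Bn ∪ (M a).roots.toFinset, fun z hz => ?_⟩
    rw [Finset.mem_union, Finset.mem_union, not_or, not_or] at hz
    obtain ⟨⟨h1, h2⟩, h3⟩ := hz
    by_cases h : M a = 0
    · have h4 : ev z M a = 0 := by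
        unfold ev
        rw [h, eval_zero, Int.cast_zero]
      have h5 := hBy z h1
      constructor
      · rw [run_pos h4, h5.1]
        exact (if_pos h).symm
      · show 1 + (if ev z M a = 0 then _ else _) = 1 + (if M a = 0 then _ else _)
        rw [if_pos h4, if_pos h, h5.2]
    · have h4 : ev z M a ≠ 0 := by
        unfold ev
        intro h0
        apply h3
        rw [Multiset.mem_toFinset, mem_roots h]
        exact_mod_cast h0
      have h5 := hBn z h2
      constructor
      · rw [run_neg h4, h5.1]
        exact (if_neg h).symm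
      · show 1 + (if ev z M a = 0 then _ else _) = 1 + (if M a = 0 then _ else _)
        rw [if_neg h4, if_neg h, h5.2]

/-- without tests there is only one answer -/
theorem run_of_gtests_eq_zero (x : ι → ℤ[X]) (t : Tree ι) : t.DivFree → ∀ M : ℕ → ℤ[X],
    t.gtests x M = 0 → ∀ z, t.run (ev z x) (ev z M) = t.grun x M := by
  induction t with
  | answer b => exact fun _ M _ z => rfl
  | comp r o t ih =>
    rintro ⟨ho, ht⟩ M h0 z
    have h := ih ht (Function.update M r (o.pval x M)) h0 z
    rw [ev_update, ← op_eval x M z o ho] at h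
    exact h
  | test a yes no _ _ =>
    intro _ M h0
    exact absurd (Nat.add_eq_zero_iff.mp h0).1 one_ne_zero

/-- the long numbers -/
def Long (m : ℕ) (v : ℚ) : Prop := (m.factorial : ℚ) ≤ 2 ^ m * |v|

theorem card_not_long {m : ℕ} (hm : 1 ≤ m) {P : ℤ[X]} (hP : m ≤ P.natDegree) (S : Finset ℤ)
    (hS : ∀ z ∈ S, ¬ Long m (((P.eval z : ℤ)) : ℚ)) : S.card ≤ P.natDegree := by
  by_contra hcon
  have hP0 : P ≠ 0 := by
    rintro rfl
    rw [natDegree_zero] at hP
    omega
  obtain ⟨z, hz, hz'⟩ := Pool.Agent.H638R2.Interp.exists_large_value hP0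
    (X := S) (by omega)
  apply hS z hz
  have h1 := Pool.Agent.H638R2.Interp.factorial_div_two_pow_mono hm hP hz'
  unfold Long
  exact_mod_cast h1

/-- The main lemma. -/
theorem few_short {m : ℕ} (hm : 2 ≤ m) (x : ι → ℤ[X]) (hx : ∀ i, (x i).natDegree ≤ 1)
    (t : Tree ι) : t.DivFree → ∀ M : ℕ → ℤ[X], (∀ a, (M a).natDegree < m) → t.grun x M = false →
    ∀ S : Finset ℤ, (∀ z ∈ S, t.run (ev z x) (ev z M) = true ∧
      ¬ t.ComputesFrom (Long m) (ev z x) (ev z M)) →
    S.card ≤ (2 * m - 2) * t.gtests x M := by
  classical
  induction t with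
  | answer b =>
    intro _ M _ hg S hS
    have h1 : S = ∅ := by
      rw [Finset.eq_empty_iff_forall_notMem]
      intro z hz
      have h2 : b = true := (hS z hz).1
      have h3 : b = false := hg
      rw [h2] at h3
      exact Bool.noConfusion h3
    rw [h1, Finset.card_empty]
    exact Nat.zero_le _
  | comp r o t ih =>
    rintro ⟨ho, ht⟩ M hM hg S hS
    have hS' : ∀ z ∈ S, t.run (ev z x) (ev z (Function.update M r (o.pval x M))) = true ∧
        ¬ t.ComputesFrom (Long m) (ev z x) (ev z (Function.update M r (o.pval x M))) := by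
      intro z hz
      obtain ⟨h1, h2⟩ := hS z hz
      rw [ev_update, ← op_eval x M z o ho]
      exact ⟨h1, fun h3 => h2 (Or.inr h3)⟩
    by_cases hdeg : (o.pval x M).natDegree < m
    · refine ih ht (Function.update M r (o.pval x M)) (fun a => ?_) hg S hS'
      by_cases ha : a = r
      · subst ha
        rw [Function.update_self]
        exact hdeg
      · rw [Function.update_of_ne ha]
        exact hM a
    · have hup : (o.pval x M).natDegree ≤ 2 * m - 2 := by
        cases o with
        | inp i => exact (hx i).trans (by omega)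
        | const c =>
          show (C c : ℤ[X]).natDegree ≤ _
          rw [natDegree_C]
          exact Nat.zero_le _
        | add a b =>
          have h1 := natDegree_add_le (M a) (M b)
          have h2 := max_lt (hM a) (hM b)
          show (M a + M b).natDegree ≤ _
          omega
        | sub a b =>
          have h1 := natDegree_sub_le (M a) (M b)
          have h2 := max_lt (hM a) (hM b)
          show (M a - M b).natDegree ≤ _
          omega
        | mul a b =>
          have h1 := natDegree_mul_le (p := M a) (q := M b)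
          have h2 := hM a
          have h3 := hM b
          show (M a * M b).natDegree ≤ _
          omega
        | div a b => exact absurd rfl (ho a b)
      have hc : S.card ≤ (o.pval x M).natDegree := by
        refine card_not_long (by omega) (not_lt.mp hdeg) S fun z hz h1 => ?_
        apply (hS z hz).2
        left
        rw [op_eval x M z o ho]
        exact h1
      have hgt : (Tree.comp r o t).gtests x M = t.gtests x (Function.update M r (o.pval x M)) := rfl
      rcases Nat.eq_zero_or_pos (t.gtests x (Function.update M r (o.pval x M))) with h0 | h0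
      · have h1 : S = ∅ := by
          rw [Finset.eq_empty_iff_forall_notMem]
          intro z hz
          have h2 := run_of_gtests_eq_zero x t ht _ h0 z
          rw [(hS' z hz).1] at h2
          have h3 : t.grun x (Function.update M r (o.pval x M)) = false := hg
          rw [h3] at h2
          exact Bool.noConfusion h2
        rw [h1, Finset.card_empty]
        exact Nat.zero_le _
      · rw [hgt]
        calc S.card ≤ (2 * m - 2) * 1 := by omega
          _ ≤ _ := Nat.mul_le_mul_left _ h0
  | test a yes no ihy ihn =>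
    rintro ⟨hy, hn⟩ M hM hg S hS
    have hgt : (Tree.test a yes no).gtests x M =
      1 + if M a = 0 then yes.gtests x M else no.gtests x M := rfl
    have hgr : (Tree.test a yes no).grun x M =
      if M a = 0 then yes.grun x M else no.grun x M := rfl
    by_cases h : M a = 0
    · rw [if_pos h] at hgt hgr
      have h4 : ∀ z, ev z M a = 0 := by
        intro z
        unfold ev
        rw [h, eval_zero, Int.cast_zero]
      have h5 := ihy hy M hM (by rw [← hgr]; exact hg) S (by
        intro z hz
        obtain ⟨h1, h2⟩ := hS z hz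
        rw [run_pos (h4 z)] at h1
        refine ⟨h1, fun h3 => h2 ?_⟩
        show if ev z M a = 0 then _ else _
        rw [if_pos (h4 z)]
        exact h3)
      rw [hgt, mul_add]
      omega
    · rw [if_neg h] at hgt hgr
      have h5 := ihn hn M hM (by rw [← hgr]; exact hg) (S.filter fun z => ¬ (M a).eval z = 0) (by
        intro z hz
        rw [Finset.mem_filter] at hz
        obtain ⟨h1, h2⟩ := hS z hz.1
        have h4 : ev z M a ≠ 0 := by
          unfold ev
          exact_mod_cast hz.2
        rw [run_neg h4] at h1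
        refine ⟨h1, fun h3 => h2 ?_⟩
        show if ev z M a = 0 then _ else _
        rw [if_neg h4]
        exact h3)
      have h6 : (S.filter fun z => (M a).eval z = 0).card ≤ m - 1 := by
        have h7 : (S.filter fun z => (M a).eval z = 0) ⊆ (M a).roots.toFinset := by
          intro z hz
          rw [Finset.mem_filter] at hz
          rw [Multiset.mem_toFinset, mem_roots h]
          exact hz.2
        have h8 := Finset.card_le_card h7
        have h9 := (Multiset.toFinset_card_le (M a).roots).trans (card_roots' (M a))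
        have h10 := hM a
        omega
      have h7 := Finset.card_filter_add_card_filter_not (s := S) (fun z => (M a).eval z = 0)
      rw [hgt, mul_add, mul_one]
      omega

/-! ### The systems -/

/-- the coefficients as polynomials in `z` -/
noncomputable def Xp (k : ℕ) : Fin (k + 1) × (Fin k →₀ ℕ) → ℤ[X] := coeffs (sys ℤ[X] k X)

theorem Xp_eval (k : ℕ) (z : ℤ) : ev z (Xp k) = coeffs (sys ℚ k (z : ℚ)) := by
  have h1 := coeffs_map (evalRingHom z) k (X : ℤ[X])
  have h2 := coeffs_map (Int.castRingHom ℚ) k z
  have h3 : evalRingHom z (X : ℤ[X]) = z := by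
    rw [coe_evalRingHom, eval_X]
  rw [h3] at h1
  have h4 : (Int.castRingHom ℚ) z = (z : ℚ) := rfl
  rw [h4, h1] at h2
  rw [h2]
  rfl

theorem Xp_natDegree (k : ℕ) (q : Fin (k + 1) × (Fin k →₀ ℕ)) : (Xp k q).natDegree ≤ 1 := by
  classical
  obtain ⟨l, m⟩ := q
  show (MvPolynomial.coeff m (sys ℤ[X] k X l)).natDegree ≤ 1
  have hC : ∀ (l : Fin (k + 1)), ∃ (a : ℤ) (b : ℤ), MvPolynomial.coeff m (sys ℤ[X] k X l) =
      C a * X + C b := by
    intro l
    unfold sys
    have hX : ∀ i : Fin k, ∃ b : ℤ, MvPolynomial.coeff m (MvPolynomial.X i : MvPolynomial (Fin k) ℤ[X]) =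
        C b := by
      intro i
      rw [MvPolynomial.coeff_X]
      by_cases h : Finsupp.single i 1 = m
      · exact ⟨1, by rw [if_pos h, C_1]⟩
      · exact ⟨0, by rw [if_neg h, C_0]⟩
    refine Fin.lastCases ?_ (fun i => ?_) l
    · rw [Fin.snoc_last, MvPolynomial.coeff_sub, MvPolynomial.coeff_sum, MvPolynomial.coeff_C]
      choose b hb using hX
      have h1 : ∑ i : Fin k, MvPolynomial.coeff m
          (MvPolynomial.C ((2 : ℤ[X]) ^ (i : ℕ)) * MvPolynomial.X i) =
          C (∑ i : Fin k, 2 ^ (i : ℕ) * b i) := by
        rw [map_sum]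
        refine Finset.sum_congr rfl fun i _ => ?_
        rw [MvPolynomial.coeff_C_mul, hb, C_mul, C_pow]
        rfl
      rw [h1]
      by_cases h : 0 = m
      · refine ⟨-1, ∑ i : Fin k, 2 ^ (i : ℕ) * b i, ?_⟩
        rw [if_pos h, C_neg, C_1]
        ring
      · refine ⟨0, ∑ i : Fin k, 2 ^ (i : ℕ) * b i, ?_⟩
        rw [if_neg h, C_0]
        ring
    · rw [Fin.snoc_castSucc, MvPolynomial.coeff_sub]
      obtain ⟨b, hb⟩ := hX i
      rw [hb, MvPolynomial.coeff_X_pow]
      by_cases h : Finsupp.single i 2 = m
      · refine ⟨0, 1 - b, ?_⟩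
        rw [if_pos h, C_0, C_sub, C_1]
        ring
      · refine ⟨0, -b, ?_⟩
        rw [if_neg h, C_0, C_neg]
        ring
  obtain ⟨a, b, hab⟩ := hC l
  rw [hab]
  exact natDegree_linear_le

end Pool.Agent.H30R2.BC
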