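import Pool.Agent.H30R2.BC.LV

set_option autoImplicit false

/-! Trees without divisions compute long integers on most of the solvable systems: conclusion. -/

namespace Pool.Agent.H30R2.BC

open Finset Polynomial

theorem ev_zero (z : ℤ) : ev z (0 : ℕ → ℤ[X]) = 0 := by
  funext a
  unfold ev
  rw [Pi.zero_apply, eval_zero, Int.cast_zero]
  rfl

/-- Most of the runs on the solvable systems compute long numbers. -/
theorem lv_main (k m T : ℕ) (hm : 2 ≤ m) (Ω : Type) [Fintype Ω]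
    (t : Ω → Tree (Fin (k + 1) × (Fin k →₀ ℕ))) (hdf : ∀ ω, (t ω).DivFree) (ε : ℝ)
    (hT : ∀ ω, ∀ z : ℕ, (t ω).tests (coeffs (sys ℚ k z)) ≤ T)
    (hE : ∀ z : ℕ, (1 - ε) * Nat.card Ω ≤ Nat.card {ω //
      (t ω).accepts (coeffs (sys ℂ k z)) = true ↔ Solvable (sys ℂ k z)}) :
    (1 - 2 * ε) * 2 ^ k * Nat.card Ω - 2 * (m - 1) * T * Nat.card Ω ≤
      Nat.card {q : Ω × Fin (2 ^ k) //
        (t q.1).Computes (Long m) (coeffs (sys ℚ k ((q.2 : ℕ) : ℚ)))} := by
  classical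
  -- the run over the rational numbers
  have hE' : ∀ z : ℕ, (1 - ε) * Fintype.card Ω ≤ ((univ.filter fun ω =>
      ((t ω).run (ev z (Xp k)) (ev z 0) = true ↔ z < 2 ^ k)).card : ℝ) := by
    intro z
    have h1 := hE z
    rw [Nat.card_eq_fintype_card, Nat.card_eq_fintype_card, Fintype.card_subtype] at h1
    refine h1.trans (le_of_eq ?_)
    congr 2
    refine Finset.filter_congr fun ω _ => ?_
    rw [coeffs_complex, accepts_map, solvable_iff, Xp_eval, ev_zero, Int.cast_natCast]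
    rfl
  have hT' : ∀ ω, ∀ z : ℕ, (t ω).testsFrom (ev z (Xp k)) (ev z 0) ≤ T := by
    intro ω z
    have h1 := hT ω z
    rw [Xp_eval, ev_zero, Int.cast_natCast]
    exact h1
  -- the generic runs
  choose B hB using fun ω => generic (Xp k) (t ω) (hdf ω) 0
  obtain ⟨z0, hz0, hz0B⟩ : ∃ z0 : ℕ, 2 ^ k ≤ z0 ∧ ∀ ω, (z0 : ℤ) ∉ B ω := by
    obtain ⟨N, hN⟩ : ∃ N : ℕ, ∀ ω, ∀ b ∈ B ω, b < (N : ℤ) := by
      obtain ⟨u, hu⟩ := (univ.biUnion B).bddAbove
      refine ⟨u.toNat + 1, fun ω b hb => ?_⟩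
      have h1 := hu (Finset.mem_coe.mpr (Finset.mem_biUnion.mpr ⟨ω, mem_univ ω, hb⟩))
      have h2 := Int.self_le_toNat u
      push_cast
      omega
    refine ⟨2 ^ k + N, Nat.le_add_right _ _, fun ω h => ?_⟩
    have h1 := hN ω _ h
    push_cast at h1
    have h2 : (0 : ℤ) ≤ 2 ^ k := by positivity
    omega
  set A : Finset Ω := univ.filter fun ω => (t ω).grun (Xp k) 0 = true with hA
  have hgt : ∀ ω, (t ω).gtests (Xp k) 0 ≤ T := by
    intro ω
    rw [← (hB ω z0 (hz0B ω)).2]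
    exact hT' ω z0
  have hAc : (A.card : ℝ) ≤ ε * Fintype.card Ω := by
    have h1 := hE' z0
    have h2 : (univ.filter fun ω =>
        ((t ω).run (ev z0 (Xp k)) (ev z0 0) = true ↔ z0 < 2 ^ k)) =
        univ.filter fun ω => ¬ (t ω).grun (Xp k) 0 = true := by
      refine Finset.filter_congr fun ω _ => ?_
      rw [(hB ω z0 (hz0B ω)).1]
      exact ⟨fun h h' => absurd (h.mp h') (by omega), fun h => ⟨fun h' => absurd h' h,
        fun h' => absurd h' (by omega)⟩⟩
    rw [h2] at h1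
    have h3 := Finset.card_filter_add_card_filter_not (s := (univ : Finset Ω))
      (fun ω => (t ω).grun (Xp k) 0 = true)
    rw [Finset.card_univ] at h3
    have h4 : (A.card : ℝ) + (univ.filter fun ω => ¬ (t ω).grun (Xp k) 0 = true).card =
        Fintype.card Ω := by exact_mod_cast h3
    linarith
  -- pairs
  set R : Finset (Ω × Fin (2 ^ k)) := univ.filter fun q =>
    (t q.1).run (ev ((q.2 : ℕ) : ℤ) (Xp k)) (ev ((q.2 : ℕ) : ℤ) 0) = true with hR
  set L : Finset (Ω × Fin (2 ^ k)) := univ.filter fun q =>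
    (t q.1).ComputesFrom (Long m) (ev ((q.2 : ℕ) : ℤ) (Xp k)) (ev ((q.2 : ℕ) : ℤ) 0) with hL
  have hRc : (1 - ε) * Fintype.card Ω * 2 ^ k ≤ (R.card : ℝ) := by
    have h1 : R.card = ∑ z : Fin (2 ^ k), (univ.filter fun ω =>
        (t ω).run (ev ((z : ℕ) : ℤ) (Xp k)) (ev ((z : ℕ) : ℤ) 0) = true).card := by
      rw [hR, Finset.card_filter, Fintype.sum_prod_type_right]
      refine Finset.sum_congr rfl fun z _ => ?_
      rw [Finset.card_filter]
    rw [h1]
    push_cast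
    have h2 : ∀ z : Fin (2 ^ k), (1 - ε) * Fintype.card Ω ≤ ((univ.filter fun ω =>
        (t ω).run (ev ((z : ℕ) : ℤ) (Xp k)) (ev ((z : ℕ) : ℤ) 0) = true).card : ℝ) := by
      intro z
      refine (hE' z).trans (le_of_eq ?_)
      congr 2
      refine Finset.filter_congr fun ω _ => ?_
      exact ⟨fun h => h.mpr z.2, fun h => ⟨fun _ => z.2, fun _ => h⟩⟩
    calc (1 - ε) * Fintype.card Ω * 2 ^ k = ∑ _z : Fin (2 ^ k), (1 - ε) * Fintype.card Ω := by
          rw [Finset.sum_const, Finset.card_univ, Fintype.card_fin, nsmul_eq_mul]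
          push_cast
          ring
      _ ≤ _ := Finset.sum_le_sum fun z _ => h2 z
  have hcov : R ⊆ (A ×ˢ univ) ∪ L ∪ (univ.filter fun ω => ω ∉ A).biUnion fun ω =>
      (univ.filter fun z : Fin (2 ^ k) =>
        (t ω).run (ev ((z : ℕ) : ℤ) (Xp k)) (ev ((z : ℕ) : ℤ) 0) = true ∧
        ¬ (t ω).ComputesFrom (Long m) (ev ((z : ℕ) : ℤ) (Xp k)) (ev ((z : ℕ) : ℤ) 0)).image
          fun z => (ω, z) := by
    rintro ⟨ω, z⟩ hq
    have hq' := (Finset.mem_filter.mp hq).2
    rw [Finset.mem_union, Finset.mem_union]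
    by_cases hωA : ω ∈ A
    · exact Or.inl (Or.inl (Finset.mem_product.mpr ⟨hωA, mem_univ _⟩))
    · by_cases hl : (t ω).ComputesFrom (Long m) (ev ((z : ℕ) : ℤ) (Xp k)) (ev ((z : ℕ) : ℤ) 0)
      · exact Or.inl (Or.inr (Finset.mem_filter.mpr ⟨mem_univ _, hl⟩))
      · right
        rw [Finset.mem_biUnion]
        refine ⟨ω, Finset.mem_filter.mpr ⟨mem_univ _, hωA⟩, ?_⟩
        exact Finset.mem_image_of_mem _ (Finset.mem_filter.mpr ⟨mem_univ _, hq', hl⟩)
  have hfew : ∀ ω, ω ∉ A → ((univ.filter fun z : Fin (2 ^ k) =>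
        (t ω).run (ev ((z : ℕ) : ℤ) (Xp k)) (ev ((z : ℕ) : ℤ) 0) = true ∧
        ¬ (t ω).ComputesFrom (Long m) (ev ((z : ℕ) : ℤ) (Xp k)) (ev ((z : ℕ) : ℤ) 0)).image
          fun z => (ω, z)).card ≤ (2 * m - 2) * T := by
    intro ω hω
    refine Finset.card_image_le.trans ?_
    have hg : (t ω).grun (Xp k) 0 = false := by
      rw [← Bool.not_eq_true]
      exact fun h => hω (Finset.mem_filter.mpr ⟨mem_univ _, h⟩)
    have h1 := few_short hm (Xp k) (Xp_natDegree k) (t ω) (hdf ω) 0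
      (fun a => by rw [Pi.zero_apply, natDegree_zero]; omega) hg
      ((univ.filter fun z : Fin (2 ^ k) =>
        (t ω).run (ev ((z : ℕ) : ℤ) (Xp k)) (ev ((z : ℕ) : ℤ) 0) = true ∧
        ¬ (t ω).ComputesFrom (Long m) (ev ((z : ℕ) : ℤ) (Xp k)) (ev ((z : ℕ) : ℤ) 0)).image
          fun z : Fin (2 ^ k) => ((z : ℕ) : ℤ)) (by
        intro z hz
        rw [Finset.mem_image] at hz
        obtain ⟨z', hz', rfl⟩ := hz
        exact (Finset.mem_filter.mp hz').2)
    rw [Finset.card_image_of_injective] at h1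
    · exact h1.trans (Nat.mul_le_mul_left _ (hgt ω))
    · intro a b hab
      have h2 : ((a : ℕ) : ℤ) = ((b : ℕ) : ℤ) := hab
      exact Fin.ext (by exact_mod_cast h2)
  have hcard : R.card ≤ A.card * 2 ^ k + L.card + Fintype.card Ω * ((2 * m - 2) * T) := by
    refine (Finset.card_le_card hcov).trans ((Finset.card_union_le _ _).trans ?_)
    refine add_le_add ((Finset.card_union_le _ _).trans ?_) ?_
    · rw [Finset.card_product, Finset.card_univ, Fintype.card_fin]
    · refine Finset.card_biUnion_le.trans ?_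
      calc _ ≤ ∑ _ω ∈ univ.filter (fun ω => ω ∉ A), (2 * m - 2) * T :=
            Finset.sum_le_sum fun ω hω => hfew ω (Finset.mem_filter.mp hω).2
        _ ≤ _ := by
            rw [Finset.sum_const, smul_eq_mul]
            exact Nat.mul_le_mul_right _ (Finset.card_le_univ _)
  have hLc : Nat.card {q : Ω × Fin (2 ^ k) //
        (t q.1).Computes (Long m) (coeffs (sys ℚ k ((q.2 : ℕ) : ℚ)))} = L.card := by
    rw [Nat.card_eq_fintype_card, Fintype.card_subtype, hL]
    congr 1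
    refine Finset.filter_congr fun q _ => ?_
    rw [Xp_eval, ev_zero, Int.cast_natCast]
    rfl
  rw [hLc, Nat.card_eq_fintype_card]
  have h1 : (R.card : ℝ) ≤ A.card * 2 ^ k + L.card + Fintype.card Ω * ((2 * m - 2) * T) := by
    have h2 : ((2 * m - 2 : ℕ) : ℝ) = 2 * (m : ℝ) - 2 := by
      rw [Nat.cast_sub (by omega)]
      push_cast
      ring
    rw [← h2]
    exact_mod_cast hcard
  have h2 : (A.card : ℝ) * 2 ^ k ≤ ε * Fintype.card Ω * 2 ^ k :=
    mul_le_mul_of_nonneg_right hAc (by positivity)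
  have h3 : (1 - 2 * ε) * 2 ^ k * (Fintype.card Ω : ℝ) =
      (1 - ε) * Fintype.card Ω * 2 ^ k - ε * Fintype.card Ω * 2 ^ k := by ring
  have h4 : (Fintype.card Ω : ℝ) * ((2 * m - 2) * T) = 2 * (m - 1) * T * Fintype.card Ω := by ring
  rw [h3]
  linarith

end Pool.Agent.H30R2.BC
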