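import Pool.Agent.H30R2.BC.Tree

set_option autoImplicit false

/-! The lower bound for the bit cost. -/

namespace Pool.Agent.H30R2.BC

open Finset

variable {ι : Type}

/-- the answers do not change under extensions of the field -/
theorem run_map {F F' : Type} [Field F] [Field F'] (φ : F →+* F') (x : ι → F) (t : Tree ι) :
    ∀ m : ℕ → F, t.run (fun i => φ (x i)) (fun a => φ (m a)) = t.run x m := by
  induction t with
  | answer b => intro m; rfl
  | comp r o t ih =>
    intro m
    show t.run _ (Function.update (fun a => φ (m a)) r _) =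
      t.run x (Function.update m r (o.val x m))
    rw [← ih]
    congr 1
    funext a
    by_cases ha : a = r
    · subst ha
      rw [Function.update_self, Function.update_self]
      cases o with
      | inp i => rfl
      | const c => exact (map_intCast φ c).symm
      | add a b => exact (map_add φ _ _).symm
      | sub a b => exact (map_sub φ _ _).symm
      | mul a b => exact (map_mul φ _ _).symm
      | div a b => exact (map_div₀ φ _ _).symm
    · rw [Function.update_of_ne ha, Function.update_of_ne ha]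
  | test a yes no ihy ihn =>
    intro m
    by_cases h : m a = 0
    · rw [run_pos h, run_pos (by rw [h, map_zero]), ihy]
    · rw [run_neg h, run_neg ((map_ne_zero φ).mpr h), ihn]

theorem accepts_map {F F' : Type} [Field F] [Field F'] (φ : F →+* F') (x : ι → F) (t : Tree ι) :
    t.accepts (fun i => φ (x i)) = t.accepts x := by
  unfold Tree.accepts
  rw [← run_map φ x t 0]
  congr 1
  funext a
  exact (map_zero φ).symm

open Classical in
/-- the main counting -/
theorem counting (n : ℕ) (X : ℕ → ι → ℤ) (hX : ∀ z p : ℕ, ∀ i, (p : ℤ) ∣ X z i - X (z + p) i)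
    {Ω : Type} [Fintype Ω] (t : Ω → Tree ι) (C ε : ℝ)
    (hE : ∀ x < 2 * n, (1 - ε) * Fintype.card Ω ≤ ((univ.filter fun ω =>
      ((t ω).accepts (fun i => (X x i : ℚ)) = true ↔ x < n) ∧
        ((t ω).cost (fun i => (X x i : ℚ)) : ℝ) ≤ C).card : ℝ))
    (P : Finset ℕ) (hP : ∀ p ∈ P, p.Prime ∧ p ≤ n) (hC : 0 ≤ C) :
    ((1 - 2 * ε) * ∑ p ∈ P, p * Real.log p) * Fintype.card Ω ≤
      (2 * n * (C * Real.log 2)) * Fintype.card Ω := by
  have hlog2 : 0 ≤ Real.log 2 := Real.log_nonneg (by norm_num)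
  set E : ℕ → Finset Ω := fun x => univ.filter fun ω =>
      ((t ω).accepts (fun i => (X x i : ℚ)) = true ↔ x < n) ∧
        ((t ω).cost (fun i => (X x i : ℚ)) : ℝ) ≤ C with hEdef
  set g : ℕ → ℕ → Ω → ℝ := fun p x ω =>
    if (t ω).Good p (fun i => (X x i : ℚ)) 0 then 0 else Real.log p with hg
  have hg0 : ∀ p x ω, 0 ≤ g p x ω := by
    intro p x ω
    show 0 ≤ if _ then 0 else Real.log (p : ℝ)
    split_ifs
    · exact le_refl _
    · exact Real.log_natCast_nonneg p
  set G : ℕ → ℕ → ℝ := fun p x => ∑ ω ∈ E x, g p x ω with hG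
  have hG0 : ∀ p x, 0 ≤ G p x := fun p x => Finset.sum_nonneg fun ω _ => hg0 p x ω
  -- one pair
  have hpair : ∀ p ∈ P, ∀ z, z < n → n ≤ z + p →
      (1 - 2 * ε) * Fintype.card Ω * Real.log p ≤ G p z + G p (z + p) := by
    intro p hp z hz hzp
    obtain ⟨hpp, hpn⟩ := hP p hp
    have hlog : 0 ≤ Real.log (p : ℝ) := Real.log_natCast_nonneg p
    have h1 := hE z (by omega)
    have h2 := hE (z + p) (by omega)
    have h3 : ((E z).card : ℝ) + (E (z + p)).card ≤ (E z ∩ E (z + p)).card + Fintype.card Ω := by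
      have h4 := Finset.card_union_add_card_inter (E z) (E (z + p))
      have h5 : (E z ∪ E (z + p)).card ≤ Fintype.card Ω := Finset.card_le_univ _
      have h6 : (E z).card + (E (z + p)).card ≤ (E z ∩ E (z + p)).card + Fintype.card Ω := by
        omega
      exact_mod_cast h6
    have h4 : (1 - 2 * ε) * Fintype.card Ω ≤ (E z ∩ E (z + p)).card := by
      have h1' : (1 - ε) * Fintype.card Ω ≤ (E z).card := h1
      have h2' : (1 - ε) * Fintype.card Ω ≤ (E (z + p)).card := h2
      linarith
    have h5 : ∀ ω ∈ E z ∩ E (z + p), Real.log p ≤ g p z ω + g p (z + p) ω := by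
      intro ω hω
      rw [Finset.mem_inter] at hω
      obtain ⟨ha, hb⟩ := hω
      have ha' := (Finset.mem_filter.mp ha).2.1
      have hb' := (Finset.mem_filter.mp hb).2.1
      by_cases hz1 : (t ω).Good p (fun i => (X z i : ℚ)) 0
      · by_cases hz2 : (t ω).Good p (fun i => (X (z + p) i : ℚ)) 0
        · exfalso
          have h6 := same_answer hpp (t ω) (X z) (X (z + p)) (hX z p) hz1 hz2
          rw [h6] at ha'
          have h7 := hb'.mp (ha'.mpr hz)
          omega
        · have h6 : g p (z + p) ω = Real.log p := if_neg hz2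
          rw [h6]
          exact le_add_of_nonneg_left (hg0 _ _ _)
      · have h6 : g p z ω = Real.log p := if_neg hz1
        rw [h6]
        exact le_add_of_nonneg_right (hg0 _ _ _)
    calc (1 - 2 * ε) * Fintype.card Ω * Real.log p
        ≤ (E z ∩ E (z + p)).card * Real.log p := mul_le_mul_of_nonneg_right h4 hlog
      _ = ∑ _ω ∈ E z ∩ E (z + p), Real.log p := by rw [Finset.sum_const, nsmul_eq_mul]
      _ ≤ ∑ ω ∈ E z ∩ E (z + p), (g p z ω + g p (z + p) ω) := Finset.sum_le_sum h5
      _ = ∑ ω ∈ E z ∩ E (z + p), g p z ω + ∑ ω ∈ E z ∩ E (z + p), g p (z + p) ω :=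
          Finset.sum_add_distrib
      _ ≤ G p z + G p (z + p) := by
          refine add_le_add ?_ ?_
          · exact Finset.sum_le_sum_of_subset_of_nonneg Finset.inter_subset_left
              fun ω _ _ => hg0 _ _ _
          · exact Finset.sum_le_sum_of_subset_of_nonneg Finset.inter_subset_right
              fun ω _ _ => hg0 _ _ _
  -- one prime
  have hprime : ∀ p ∈ P, (1 - 2 * ε) * (p * Real.log p) * Fintype.card Ω ≤
      ∑ x ∈ range (2 * n), G p x := by
    intro p hp
    obtain ⟨hpp, hpn⟩ := hP p hp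
    have h1 : ∑ z ∈ Ico (n - p) n, G p (z + p) = ∑ x ∈ Ico n (n + p), G p x := by
      rw [Finset.sum_Ico_add' (fun x => G p x) (n - p) n p]
      congr 2
      omega
    have h2 : ∑ z ∈ Ico (n - p) n, G p z + ∑ x ∈ Ico n (n + p), G p x =
        ∑ x ∈ Ico (n - p) (n + p), G p x :=
      Finset.sum_Ico_consecutive _ (by omega) (by omega)
    calc (1 - 2 * ε) * (p * Real.log p) * Fintype.card Ω
        = ∑ _z ∈ Ico (n - p) n, (1 - 2 * ε) * Fintype.card Ω * Real.log p := by
          rw [Finset.sum_const, Nat.card_Ico, nsmul_eq_mul]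
          have h3 : n - (n - p) = p := by omega
          rw [h3]
          ring
      _ ≤ ∑ z ∈ Ico (n - p) n, (G p z + G p (z + p)) := by
          refine Finset.sum_le_sum fun z hz => hpair p hp z ?_ ?_
          · exact (Finset.mem_Ico.mp hz).2
          · have := (Finset.mem_Ico.mp hz).1
            omega
      _ = ∑ x ∈ Ico (n - p) (n + p), G p x := by
          rw [Finset.sum_add_distrib, h1, h2]
      _ ≤ ∑ x ∈ range (2 * n), G p x := by
          refine Finset.sum_le_sum_of_subset_of_nonneg ?_ fun x _ _ => hG0 p x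
          intro x hx
          rw [Finset.mem_Ico] at hx
          rw [Finset.mem_range]
          omega
  calc ((1 - 2 * ε) * ∑ p ∈ P, p * Real.log p) * Fintype.card Ω
      = ∑ p ∈ P, (1 - 2 * ε) * (p * Real.log p) * Fintype.card Ω := by
        rw [Finset.mul_sum, Finset.sum_mul]
    _ ≤ ∑ p ∈ P, ∑ x ∈ range (2 * n), G p x := Finset.sum_le_sum hprime
    _ = ∑ x ∈ range (2 * n), ∑ ω ∈ E x, ∑ p ∈ P, g p x ω := by
        rw [Finset.sum_comm]
        refine Finset.sum_congr rfl fun x _ => ?_
        rw [Finset.sum_comm]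
    _ ≤ ∑ x ∈ range (2 * n), ∑ _ω ∈ E x, C * Real.log 2 := by
        refine Finset.sum_le_sum fun x _ => Finset.sum_le_sum fun ω hω => ?_
        have h1 := bad_sum (fun i => (X x i : ℚ)) P (fun p hp => (hP p hp).1) (t ω) 0
        have h2 : ((t ω).cost (fun i => (X x i : ℚ)) : ℝ) ≤ C := (Finset.mem_filter.mp hω).2.2
        exact h1.trans (mul_le_mul_of_nonneg_right h2 hlog2)
    _ ≤ ∑ _x ∈ range (2 * n), Fintype.card Ω * (C * Real.log 2) := by
        refine Finset.sum_le_sum fun x _ => ?_
        rw [Finset.sum_const, nsmul_eq_mul]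
        refine mul_le_mul_of_nonneg_right ?_ (mul_nonneg hC hlog2)
        exact_mod_cast Finset.card_le_univ _
    _ = (2 * n * (C * Real.log 2)) * Fintype.card Ω := by
        rw [Finset.sum_const, Finset.card_range, nsmul_eq_mul]
        push_cast
        ring

open Nat Chebyshev in
/-- a Chebyshev type bound -/
theorem sum_primes_ge {n : ℕ} (hn : 65536 ≤ n) :
    (n : ℝ) ^ 2 / 16 ≤ ∑ p ∈ primesLE n, (p : ℝ) * Real.log p := by
  have hn1 : (65536 : ℝ) ≤ n := by exact_mod_cast hn
  have hn0 : (0 : ℝ) < n := by linarith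
  set u : ℝ := √(n : ℝ) with hu
  have hu2 : u * u = n := Real.mul_self_sqrt hn0.le
  have hu256 : 256 ≤ u := by
    rw [hu]
    refine Real.le_sqrt_of_sq_le ?_
    norm_num
    linarith
  have hu0 : 0 < u := by linarith
  have hlog2 : Real.log 2 < 0.6931471808 := Real.log_two_lt_d9
  have hlog2' : 0.6931471803 < Real.log 2 := Real.log_two_gt_d9
  have hlogu : Real.log u ≤ 8 * Real.log 2 + (u / 256 - 1) := by
    have h1 : Real.log u = Real.log 256 + Real.log (u / 256) := by
      rw [← Real.log_mul (by norm_num) (by positivity)]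
      congr 1
      field_simp
    have h2 : Real.log 256 = 8 * Real.log 2 := by
      rw [show (256 : ℝ) = 2 ^ 8 by norm_num, Real.log_pow]
      norm_num
    have h3 := Real.log_le_sub_one_of_pos (show 0 < u / 256 by positivity)
    linarith
  have hlogn : Real.log n = 2 * Real.log u := by
    rw [← hu2, Real.log_mul hu0.ne' hu0.ne']
    ring
  have h4 : Real.log n ≤ 0.045 * u := by
    rw [hlogn]
    linarith
  have h5 : 2 * u * Real.log n ≤ 0.09 * n := by
    have h51 := mul_le_mul_of_nonneg_left h4 (show 0 ≤ 2 * u by positivity)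
    have h52 : 2 * u * (0.045 * u) = 0.09 * (u * u) := by ring
    rw [h52, hu2] at h51
    exact h51
  have h6 : Real.log (n + 1) ≤ 0.001 * n := by
    have h7 : Real.log (n + 1) ≤ Real.log 2 + Real.log n := by
      rw [← Real.log_mul (by norm_num) hn0.ne']
      refine Real.log_le_log (by positivity) ?_
      linarith
    have h8 : u ≤ n / 256 := by
      rw [le_div_iff₀ (by norm_num), ← hu2]
      nlinarith
    linarith
  have h7 := theta_ge n
  have h8 : θ ((n / 4 : ℕ) : ℝ) ≤ Real.log 4 * ((n / 4 : ℕ) : ℝ) := theta_le_log4_mul_x (by positivity)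
  have h9 : Real.log 4 = 2 * Real.log 2 := by
    rw [show (4 : ℝ) = 2 ^ 2 by norm_num, Real.log_pow]
    norm_num
  have h10 : (((n / 4 : ℕ) : ℕ) : ℝ) ≤ (n : ℝ) / 4 := Nat.cast_div_le
  have h11 : (n : ℝ) / 4 ≤ θ n - θ ((n / 4 : ℕ) : ℝ) := by
    have h12 : Real.log 4 * ((n / 4 : ℕ) : ℝ) ≤ Real.log 2 * n / 2 := by
      rw [h9]
      nlinarith
    nlinarith
  have hsub : primesLE (n / 4) ⊆ primesLE n := by
    intro p hp
    rw [mem_primesLE] at hp ⊢
    exact ⟨hp.1.trans (Nat.div_le_self n 4), hp.2⟩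
  rw [theta_eq_sum_primesLE_log, theta_eq_sum_primesLE_log, ← Finset.sum_sdiff hsub,
    add_sub_cancel_right] at h11
  calc (n : ℝ) ^ 2 / 16 = (n : ℝ) / 4 * (n / 4) := by ring
    _ ≤ n / 4 * ∑ p ∈ primesLE n \ primesLE (n / 4), Real.log p :=
        mul_le_mul_of_nonneg_left h11 (by positivity)
    _ = ∑ p ∈ primesLE n \ primesLE (n / 4), n / 4 * Real.log p := Finset.mul_sum _ _ _
    _ ≤ ∑ p ∈ primesLE n \ primesLE (n / 4), p * Real.log p := by
        refine Finset.sum_le_sum fun p hp => ?_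
        rw [Finset.mem_sdiff, mem_primesLE, mem_primesLE] at hp
        have h13 : n / 4 < p := by
          by_contra hc
          exact hp.2 ⟨not_lt.mp hc, hp.1.2⟩
        refine mul_le_mul_of_nonneg_right ?_ (Real.log_natCast_nonneg p)
        have h14 : n ≤ 4 * p := by omega
        have h15 : (n : ℝ) ≤ 4 * p := by exact_mod_cast h14
        linarith
    _ ≤ ∑ p ∈ primesLE n, (p : ℝ) * Real.log p := by
        refine Finset.sum_le_sum_of_subset_of_nonneg Finset.sdiff_subset fun p _ _ => ?_
        exact mul_nonneg (Nat.cast_nonneg _) (Real.log_natCast_nonneg p)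

open Nat in
/-- The lower bound for the problem `x < n`. -/
theorem lower_bound {n : ℕ} (hn : 65536 ≤ n) (X : ℕ → ι → ℤ)
    (hX : ∀ z p : ℕ, ∀ i, (p : ℤ) ∣ X z i - X (z + p) i)
    {Ω : Type} [Fintype Ω] [Nonempty Ω] (t : Ω → Tree ι) (C ε : ℝ) (hε : ε < 1 / 2)
    (hE : ∀ x < 2 * n, (1 - ε) * Nat.card Ω ≤ Nat.card {ω //
      ((t ω).accepts (fun i => (X x i : ℚ)) = true ↔ x < n) ∧
        ((t ω).cost (fun i => (X x i : ℚ)) : ℝ) ≤ C}) :
    (1 - 2 * ε) * n / 32 ≤ C := by
  classical
  have hcard : (0 : ℝ) < Fintype.card Ω := by exact_mod_cast Fintype.card_pos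
  have hE' : ∀ x < 2 * n, (1 - ε) * Fintype.card Ω ≤ ((univ.filter fun ω =>
      ((t ω).accepts (fun i => (X x i : ℚ)) = true ↔ x < n) ∧
        ((t ω).cost (fun i => (X x i : ℚ)) : ℝ) ≤ C).card : ℝ) := by
    intro x hx
    have h1 := hE x hx
    rw [Nat.card_eq_fintype_card, Nat.card_eq_fintype_card, Fintype.card_subtype] at h1
    exact h1
  have hC : 0 ≤ C := by
    have h1 := hE' 0 (by omega)
    have h2 : (0 : ℝ) < ((univ.filter fun ω =>
      ((t ω).accepts (fun i => (X 0 i : ℚ)) = true ↔ 0 < n) ∧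
        ((t ω).cost (fun i => (X 0 i : ℚ)) : ℝ) ≤ C).card : ℝ) := by
      refine lt_of_lt_of_le (mul_pos ?_ hcard) h1
      linarith
    have h3 : 0 < (univ.filter fun ω =>
      ((t ω).accepts (fun i => (X 0 i : ℚ)) = true ↔ 0 < n) ∧
        ((t ω).cost (fun i => (X 0 i : ℚ)) : ℝ) ≤ C).card := by exact_mod_cast h2
    obtain ⟨ω, hω⟩ := Finset.card_pos.mp h3
    exact (Nat.cast_nonneg _).trans (Finset.mem_filter.mp hω).2.2
  have h1 := counting n X hX t C ε hE' (primesLE n)
    (fun p hp => ⟨(mem_primesLE.mp hp).2, (mem_primesLE.mp hp).1⟩) hC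
  have h2 := le_of_mul_le_mul_right h1 hcard
  have h3 := sum_primes_ge hn
  have hn0 : (0 : ℝ) < n := by
    have : 0 < n := by omega
    exact_mod_cast this
  have hlog2 : Real.log 2 < 0.6931471808 := Real.log_two_lt_d9
  have h4 : (1 - 2 * ε) * ((n : ℝ) ^ 2 / 16) ≤ 2 * n * (C * Real.log 2) :=
    (mul_le_mul_of_nonneg_left h3 (by linarith)).trans h2
  have h5 : 2 * n * (C * Real.log 2) ≤ 2 * n * C := by
    have h6 : C * Real.log 2 ≤ C := by nlinarith
    nlinarith
  have h7 : n * ((1 - 2 * ε) * n / 16) ≤ n * (2 * C) := by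
    calc n * ((1 - 2 * ε) * n / 16) = (1 - 2 * ε) * ((n : ℝ) ^ 2 / 16) := by ring
      _ ≤ 2 * n * C := h4.trans h5
      _ = n * (2 * C) := by ring
  have h8 := le_of_mul_le_mul_left h7 hn0
  linarith

end Pool.Agent.H30R2.BC
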