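import Mathlib

set_option autoImplicit false

/-! Computation trees with the four arithmetical operations and equality tests, and their bit
cost. -/

namespace Pool.Agent.H30R2.BC

open Finset

/-- An instruction: read the input `i`, write down an integer constant, or apply an arithmetical
operation to the contents of two registers. -/
inductive Op (ι : Type) : Type
  | inp (i : ι)
  | const (c : ℤ)
  | add (a b : ℕ)
  | sub (a b : ℕ)
  | mul (a b : ℕ)
  | div (a b : ℕ)

/-- A computation tree: `comp r o t` stores the result of the instruction `o` in the register `r`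
and continues with `t`; `test a yes no` continues with `yes` or `no` according to whether the
content of the register `a` is zero; `answer b` stops with the answer `b`. -/
inductive Tree (ι : Type) : Type
  | answer (b : Bool)
  | comp (r : ℕ) (o : Op ι) (t : Tree ι)
  | test (a : ℕ) (yes no : Tree ι)

variable {ι : Type}

/-- The result of an instruction on the input `x` if the registers contain `m` (`a / 0 = 0`). -/
def Op.val {F : Type} [Field F] (x : ι → F) (m : ℕ → F) : Op ι → F
  | .inp i => x i
  | .const c => (c : F)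
  | .add a b => m a + m b
  | .sub a b => m a - m b
  | .mul a b => m a * m b
  | .div a b => m a / m b

open Classical in
/-- The answer of the tree on the input `x` if the registers contain `m`. -/
noncomputable def Tree.run {F : Type} [Field F] (x : ι → F) : Tree ι → (ℕ → F) → Bool
  | .answer b, _ => b
  | .comp r o t, m => t.run x (Function.update m r (o.val x m))
  | .test a yes no, m => if m a = 0 then yes.run x m else no.run x m

/-- The answer of the tree on the input `x`; at the beginning all the registers contain zero. -/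
noncomputable def Tree.accepts {F : Type} [Field F] (t : Tree ι) (x : ι → F) : Bool :=
  t.run x 0

/-- The number of bits of the numerator of the divisor if the instruction is a division, and zero
otherwise. -/
def Op.divBits (m : ℕ → ℚ) : Op ι → ℕ
  | .div _ b => (m b).num.natAbs.size
  | _ => 0

/-- The bit cost of the run on the input `x` if the registers contain `m`: the sum of the numbers
of bits of the numerators of all the tested numbers and of all the divisors. -/
def Tree.costFrom (x : ι → ℚ) : Tree ι → (ℕ → ℚ) → ℕ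
  | .answer _, _ => 0
  | .comp r o t, m => o.divBits m + t.costFrom x (Function.update m r (o.val x m))
  | .test a yes no, m =>
      (m a).num.natAbs.size + if m a = 0 then yes.costFrom x m else no.costFrom x m

/-- The bit cost of the run on the rational input `x`: the sum of the numbers of bits of the
numerators of all the tested numbers and of all the divisors. -/
def Tree.cost (t : Tree ι) (x : ι → ℚ) : ℕ := t.costFrom x 0

/-- the prime does not divide the divisor, unless it is zero -/
def Op.Good (p : ℕ) (m : ℕ → ℚ) : Op ι → Prop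
  | .div _ b => m b ≠ 0 → ¬ (p : ℤ) ∣ (m b).num
  | _ => True

/-- the prime does not divide the numerators of the tested numbers and of the divisors, unless
they are zero -/
def Tree.Good (p : ℕ) (x : ι → ℚ) : Tree ι → (ℕ → ℚ) → Prop
  | .answer _, _ => True
  | .comp r o t, m => o.Good p m ∧ t.Good p x (Function.update m r (o.val x m))
  | .test a yes no, m => (m a ≠ 0 → ¬ (p : ℤ) ∣ (m a).num) ∧
      if m a = 0 then yes.Good p x m else no.Good p x m

theorem run_pos {F : Type} [Field F] {x : ι → F} {a : ℕ} {yes no : Tree ι} {m : ℕ → F}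
    (h : m a = 0) : (Tree.test a yes no).run x m = yes.run x m := by
  classical
  exact if_pos h

theorem run_neg {F : Type} [Field F] {x : ι → F} {a : ℕ} {yes no : Tree ι} {m : ℕ → F}
    (h : m a ≠ 0) : (Tree.test a yes no).run x m = no.run x m := by
  classical
  exact if_neg h

/-! ### Reduction modulo a prime -/

section red

variable {p : ℕ} [Fact p.Prime]

/-- p-integral numbers -/
def PI (p : ℕ) (q : ℚ) : Prop := (q.den : ZMod p) ≠ 0

theorem PI_int (c : ℤ) : PI p (c : ℚ) := by
  unfold PI
  rw [Rat.den_intCast, Nat.cast_one]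
  exact one_ne_zero

theorem PI_of_dvd {q : ℚ} {d : ℕ} (h : q.den ∣ d) (hd : (d : ZMod p) ≠ 0) : PI p q := by
  unfold PI
  intro h0
  apply hd
  obtain ⟨e, rfl⟩ := h
  rw [Nat.cast_mul, h0, zero_mul]

theorem PI_add {q r : ℚ} (hq : PI p q) (hr : PI p r) : PI p (q + r) := by
  refine PI_of_dvd (Rat.add_den_dvd q r) ?_
  rw [Nat.cast_mul]
  exact mul_ne_zero hq hr

theorem PI_neg {q : ℚ} (hq : PI p q) : PI p (-q) := by
  unfold PI
  rw [Rat.den_neg_eq_den]
  exact hq

theorem PI_sub {q r : ℚ} (hq : PI p q) (hr : PI p r) : PI p (q - r) := by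
  rw [sub_eq_add_neg]
  exact PI_add hq (PI_neg hr)

theorem PI_mul {q r : ℚ} (hq : PI p q) (hr : PI p r) : PI p (q * r) := by
  refine PI_of_dvd (Rat.mul_den_dvd q r) ?_
  rw [Nat.cast_mul]
  exact mul_ne_zero hq hr

theorem PI_inv {q : ℚ} (hq : q ≠ 0 → ¬ (p : ℤ) ∣ q.num) : PI p q⁻¹ := by
  by_cases h : q = 0
  · rw [h, inv_zero]
    exact_mod_cast PI_int (p := p) 0
  · unfold PI
    rw [Rat.den_inv_of_ne_zero h]
    intro h0
    apply hq h
    rw [ZMod.natCast_eq_zero_iff] at h0
    exact Int.natCast_dvd.mpr h0

theorem cast_eq_zero_iff {q : ℚ} (hq : PI p q) (h : q ≠ 0 → ¬ (p : ℤ) ∣ q.num) :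
    (q : ZMod p) = 0 ↔ q = 0 := by
  constructor
  · intro h0
    by_contra hne
    apply h hne
    rw [Rat.cast_def, div_eq_zero_iff] at h0
    rcases h0 with h0 | h0
    · exact (ZMod.intCast_zmod_eq_zero_iff_dvd _ _).mp h0
    · exact absurd h0 hq
  · rintro rfl
    exact Rat.cast_zero

theorem op_red {x : ι → ℚ} {m : ℕ → ℚ} (hx : ∀ i, PI p (x i)) (hm : ∀ a, PI p (m a))
    (o : Op ι) (ho : o.Good p m) :
    PI p (o.val x m) ∧ ((o.val x m : ℚ) : ZMod p) =
      o.val (fun i => (x i : ZMod p)) (fun a => (m a : ZMod p)) := by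
  cases o with
  | inp i => exact ⟨hx i, rfl⟩
  | const c => exact ⟨PI_int c, Rat.cast_intCast c⟩
  | add a b => exact ⟨PI_add (hm a) (hm b), Rat.cast_add_of_ne_zero (hm a) (hm b)⟩
  | sub a b => exact ⟨PI_sub (hm a) (hm b), Rat.cast_sub_of_ne_zero (hm a) (hm b)⟩
  | mul a b => exact ⟨PI_mul (hm a) (hm b), Rat.cast_mul_of_ne_zero (hm a) (hm b)⟩
  | div a b =>
    have hb : m b ≠ 0 → ¬ (p : ℤ) ∣ (m b).num := ho
    refine ⟨?_, ?_⟩
    · show PI p (m a / m b)
      rw [div_eq_mul_inv]
      exact PI_mul (hm a) (PI_inv hb)
    · show ((m a / m b : ℚ) : ZMod p) = (m a : ZMod p) / (m b : ZMod p)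
      rw [div_eq_mul_inv, Rat.cast_mul_of_ne_zero (hm a) (PI_inv hb), div_eq_mul_inv]
      congr 1
      by_cases h : m b = 0
      · rw [h, inv_zero, Rat.cast_zero, inv_zero]
      · rw [Rat.cast_inv_of_ne_zero]
        intro h0
        exact hb h ((ZMod.intCast_zmod_eq_zero_iff_dvd _ _).mp h0)

/-- If the prime is good for a run then the run modulo the prime has the same answer. -/
theorem run_red {x : ι → ℚ} (hx : ∀ i, PI p (x i)) (t : Tree ι) :
    ∀ m : ℕ → ℚ, (∀ a, PI p (m a)) → t.Good p x m →
      t.run (fun i => (x i : ZMod p)) (fun a => (m a : ZMod p)) = t.run x m := by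
  induction t with
  | answer b => intro m _ _; rfl
  | comp r o t ih =>
    intro m hm hg
    obtain ⟨h1, h2⟩ := hg
    obtain ⟨h3, h4⟩ := op_red hx hm o h1
    show t.run _ (Function.update (fun a => (m a : ZMod p)) r _) =
      t.run x (Function.update m r (o.val x m))
    rw [← ih _ _ h2]
    · congr 1
      funext a
      by_cases ha : a = r
      · subst ha
        rw [Function.update_self, Function.update_self, h4]
      · rw [Function.update_of_ne ha, Function.update_of_ne ha]
    · intro a
      by_cases ha : a = r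
      · subst ha
        rw [Function.update_self]
        exact h3
      · rw [Function.update_of_ne ha]
        exact hm a
  | test a yes no ihy ihn =>
    intro m hm hg
    obtain ⟨h1, h2⟩ := hg
    have h3 := cast_eq_zero_iff (hm a) h1
    by_cases h : m a = 0
    · rw [if_pos h] at h2
      rw [run_pos h, run_pos (h3.mpr h)]
      exact ihy m hm h2
    · rw [if_neg h] at h2
      rw [run_neg h, run_neg (fun h' => h (h3.mp h'))]
      exact ihn m hm h2

end red

/-- Two integer inputs that agree modulo a good prime have the same answer. -/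
theorem same_answer {p : ℕ} (hp : p.Prime) (t : Tree ι) (x y : ι → ℤ)
    (hxy : ∀ i, (p : ℤ) ∣ x i - y i) (hx : t.Good p (fun i => (x i : ℚ)) 0)
    (hy : t.Good p (fun i => (y i : ℚ)) 0) :
    t.accepts (fun i => (x i : ℚ)) = t.accepts (fun i => (y i : ℚ)) := by
  have : Fact p.Prime := ⟨hp⟩
  have h0 : ∀ a, PI p ((0 : ℕ → ℚ) a) := fun a => by
    exact_mod_cast PI_int (p := p) 0
  unfold Tree.accepts
  rw [← run_red (fun i => PI_int (x i)) t 0 h0 hx, ← run_red (fun i => PI_int (y i)) t 0 h0 hy]
  congr 1
  funext i
  rw [Rat.cast_intCast, Rat.cast_intCast, ← sub_eq_zero, ← Int.cast_sub]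
  exact (ZMod.intCast_zmod_eq_zero_iff_dvd _ _).mpr (hxy i)

/-! ### The number of bad primes -/

theorem sum_log_le {n : ℕ} (hn : n ≠ 0) (P : Finset ℕ) (hP : ∀ p ∈ P, p.Prime) :
    ∑ p ∈ P.filter (· ∣ n), Real.log p ≤ n.size * Real.log 2 := by
  have h1 : ∏ p ∈ P.filter (· ∣ n), p ∣ n := by
    refine Finset.prod_primes_dvd n (fun p hp => ?_) (fun p hp => ?_)
    · exact (hP p (Finset.mem_filter.mp hp).1).prime
    · exact (Finset.mem_filter.mp hp).2
  have h2 : ∏ p ∈ P.filter (· ∣ n), p ≤ n := Nat.le_of_dvd (Nat.pos_of_ne_zero hn) h1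
  have h3 : (n : ℝ) ≤ 2 ^ n.size := by exact_mod_cast (Nat.lt_size_self n).le
  rw [← Real.log_prod]
  · have h4 : (0 : ℝ) < ∏ p ∈ P.filter (· ∣ n), (p : ℝ) := by
      refine Finset.prod_pos fun p hp => ?_
      exact_mod_cast (hP p (Finset.mem_filter.mp hp).1).pos
    calc Real.log (∏ p ∈ P.filter (· ∣ n), (p : ℝ)) ≤ Real.log (2 ^ n.size) := by
          refine Real.log_le_log h4 (le_trans ?_ h3)
          rw [← Nat.cast_prod]
          exact_mod_cast h2
      _ = _ := by rw [Real.log_pow]
  · intro p hp
    exact_mod_cast (hP p (Finset.mem_filter.mp hp).1).ne_zero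

open Classical in
/-- the sum of the logarithms of the elements of `P` without the property `A` -/
noncomputable def bl (P : Finset ℕ) (A : ℕ → Prop) : ℝ := ∑ p ∈ P, if A p then 0 else Real.log p

theorem bl_and (P : Finset ℕ) (A B : ℕ → Prop) :
    bl P (fun p => A p ∧ B p) ≤ bl P A + bl P B := by
  classical
  unfold bl
  rw [← Finset.sum_add_distrib]
  refine Finset.sum_le_sum fun p _ => ?_
  have h0 : 0 ≤ Real.log (p : ℝ) := Real.log_natCast_nonneg p
  by_cases hA : A p <;> by_cases hB : B p <;> simp [hA, hB, h0]

theorem bl_congr (P : Finset ℕ) {A B : ℕ → Prop} (h : ∀ p, A p ↔ B p) : bl P A = bl P B := by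
  have : A = B := funext fun p => propext (h p)
  rw [this]

theorem bl_true (P : Finset ℕ) : bl P (fun _ => True) = 0 := by
  classical
  unfold bl
  exact Finset.sum_eq_zero fun p _ => if_pos trivial

theorem sum_log_le' (q : ℚ) (P : Finset ℕ) (hP : ∀ p ∈ P, p.Prime) :
    bl P (fun p => q ≠ 0 → ¬ (p : ℤ) ∣ q.num) ≤ q.num.natAbs.size * Real.log 2 := by
  classical
  have hlog : 0 ≤ Real.log 2 := Real.log_nonneg (by norm_num)
  by_cases h : q = 0
  · rw [bl_congr P (B := fun _ => True) (fun p => iff_true_intro fun h1 => absurd h h1), bl_true]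
    exact mul_nonneg (Nat.cast_nonneg _) hlog
  · refine le_trans (le_of_eq ?_) (sum_log_le (n := q.num.natAbs) ?_ P hP)
    · unfold bl
      rw [Finset.sum_filter]
      refine Finset.sum_congr rfl fun p _ => ?_
      by_cases hd : p ∣ q.num.natAbs
      · rw [if_pos hd, if_neg]
        intro h1
        exact h1 h (Int.natCast_dvd.mpr hd)
      · rw [if_neg hd, if_pos]
        intro _ h1
        exact hd (Int.natCast_dvd.mp h1)
    · rw [Int.natAbs_ne_zero]
      exact Rat.num_ne_zero.mpr h

/-- The sum of the logarithms of the bad primes is bounded by the bit cost. -/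
theorem bad_sum (x : ι → ℚ) (P : Finset ℕ) (hP : ∀ p ∈ P, p.Prime) (t : Tree ι) :
    ∀ m : ℕ → ℚ, bl P (fun p => t.Good p x m) ≤ t.costFrom x m * Real.log 2 := by
  induction t with
  | answer b =>
    intro m
    have h1 : bl P (fun p => (Tree.answer b : Tree ι).Good p x m) = 0 := bl_true P
    rw [h1]
    exact mul_nonneg (Nat.cast_nonneg _) (Real.log_nonneg (by norm_num))
  | comp r o t ih =>
    intro m
    have h1 : ((Tree.comp r o t).costFrom x m : ℝ) * Real.log 2 =
        o.divBits m * Real.log 2 +
          t.costFrom x (Function.update m r (o.val x m)) * Real.log 2 := by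
      have h2 : (Tree.comp r o t).costFrom x m =
        o.divBits m + t.costFrom x (Function.update m r (o.val x m)) := rfl
      rw [h2]
      push_cast
      ring
    rw [h1]
    refine (bl_and P (fun p => o.Good p m)
      (fun p => t.Good p x (Function.update m r (o.val x m)))).trans (add_le_add ?_ (ih _))
    have htriv : bl P (fun _ => True) ≤ ((0 : ℕ) : ℝ) * Real.log 2 := by
      rw [bl_true, Nat.cast_zero, zero_mul]
    cases o with
    | inp i => exact htriv
    | const c => exact htriv
    | add a b => exact htriv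
    | sub a b => exact htriv
    | mul a b => exact htriv
    | div a b => exact sum_log_le' (m b) P hP
  | test a yes no ihy ihn =>
    intro m
    have h1 : (Tree.test a yes no).costFrom x m = (m a).num.natAbs.size +
      if m a = 0 then yes.costFrom x m else no.costFrom x m := rfl
    by_cases h : m a = 0
    · rw [if_pos h] at h1
      have h2 : ∀ p : ℕ, (Tree.test a yes no).Good p x m ↔
          ((m a ≠ 0 → ¬ (p : ℤ) ∣ (m a).num) ∧ yes.Good p x m) := by
        intro p
        show (_ ∧ if m a = 0 then _ else _) ↔ _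
        rw [if_pos h]
      rw [h1, bl_congr P h2]
      push_cast
      rw [add_mul]
      exact (bl_and P _ _).trans (add_le_add (sum_log_le' (m a) P hP) (ihy m))
    · rw [if_neg h] at h1
      have h2 : ∀ p : ℕ, (Tree.test a yes no).Good p x m ↔
          ((m a ≠ 0 → ¬ (p : ℤ) ∣ (m a).num) ∧ no.Good p x m) := by
        intro p
        show (_ ∧ if m a = 0 then _ else _) ↔ _
        rw [if_neg h]
      rw [h1, bl_congr P h2]
      push_cast
      rw [add_mul]
      exact (bl_and P _ _).trans (add_le_add (sum_log_le' (m a) P hP) (ihn m))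

end Pool.Agent.H30R2.BC
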